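import Mathlib

/-!
# Abstract circular systems (allowable sequences), zones, zone paths, strands

Blueprint: `/team-store/ec_large_k.md` (MP_ec6744_co).
-/

namespace Pool.Agent.Lib.EcL

/-- An allowable sequence on `Q` with half period `H`: `ab t p q` says that `p` is above `q` at time `t`. -/
structure Sys (Q : Type) where
  H : ℕ
  Hpos : 0 < H
  ab : ℤ → Q → Q → Prop
  irr : ∀ t p, ¬ ab t p p
  trans : ∀ t p q r, ab t p q → ab t q r → ab t p r
  tot : ∀ t p q, p ≠ q → ab t p q ∨ ab t q p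
  anti : ∀ t p q, ab (t + H) p q ↔ ab t q p
  stay : ∀ t p q, ab t p q → ab (t + 1) q p → ∀ j : ℕ, 1 ≤ j → j ≤ H → ab (t + j) q p
  one : ∀ t p q r, ab t p q → ab (t + 1) q p → r ≠ p → r ≠ q →
    (ab t r p ↔ ab (t + 1) r p) ∧ (ab t r q ↔ ab (t + 1) r q)

variable {Q : Type} [Fintype Q] [DecidableEq Q]

/-- `q` overtakes `p` at step `t` (between the times `t` and `t + 1`). -/
def Sys.Ov {Q : Type} (S : Sys Q) (t : ℤ) (p q : Q) : Prop := S.ab t p q ∧ S.ab (t + 1) q p

open Classical in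
/-- the tokens above `q` at time `t` -/
noncomputable def Sys.up (S : Sys Q) (t : ℤ) (q : Q) : Finset Q :=
  Finset.univ.filter (fun p => S.ab t p q)

open Classical in
/-- the zone: the `N` highest tokens at time `t` -/
noncomputable def Sys.zone (S : Sys Q) (N : ℕ) (t : ℤ) : Finset Q :=
  Finset.univ.filter (fun q => (S.up t q).card < N)

open Classical in
/-- `1` if `t` is the time of the mark of `q` (modulo the period), else `0`. -/
noncomputable def Sys.mark {Q : Type} (S : Sys Q) (mu : Q → ℤ) (t : ℤ) (q : Q) : ℕ :=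
  if ((2 * S.H : ℕ) : ℤ) ∣ (t - mu q) then 1 else 0

/-- Zone paths from `(t₀, p)` to `(t, q)` with value `v` and `g` gaps. -/
inductive ZPath (S : Sys Q) (N : ℕ) (mu : Q → ℤ) (t₀ : ℤ) (p : Q) : ℤ → Q → ℕ → ℕ → Prop
  | refl (h : p ∈ S.zone N t₀) : ZPath S N mu t₀ p t₀ p 0 0
  | stay {t : ℤ} {q : Q} {v g : ℕ} (hp : ZPath S N mu t₀ p t q v g)
      (h : q ∈ S.zone N (t + 1)) : ZPath S N mu t₀ p (t + 1) q (v + S.mark mu (t + 1) q) g
  | switch {t : ℤ} {q r : Q} {v g : ℕ} (hp : ZPath S N mu t₀ p t q v g)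
      (h : r ∈ S.zone N (t + 1)) (ho : S.Ov t q r) :
      ZPath S N mu t₀ p (t + 1) r (v + (1 + S.mark mu (t + 1) r)) g
  | gap {t t' : ℤ} {q r : Q} {v g : ℕ} (hp : ZPath S N mu t₀ p t q v g)
      (h : r ∈ S.zone N t') (hq : q ∉ S.zone N (t + 1)) (hr : r ∉ S.zone N (t' - 1))
      (ho : ∃ τ : ℤ, t < τ ∧ τ + 1 < t' ∧ S.Ov τ q r) :
      ZPath S N mu t₀ p t' r (v + (1 + S.mark mu t' r)) (g + 1)

/-- A system of strands of the `N`-zone. -/
structure Strands (S : Sys Q) (N : ℕ) where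
  L : ℤ → Fin N → Q
  ρ : Equiv.Perm (Fin N)
  inj : ∀ t, Function.Injective (L t)
  mem : ∀ t a, L t a ∈ S.zone N t
  surj : ∀ t q, q ∈ S.zone N t → ∃ a, L t a = q
  step : ∀ t a, L t a ∈ S.zone N (t + 1) → L (t + 1) a = L t a
  per : ∀ t a, L (t + ((2 * S.H : ℕ) : ℤ)) a = L t (ρ a)

open Classical in
/-- the events of strand `a` at time `t`: a switch (from `t - 1` to `t`) and the mark at time `t` -/
noncomputable def Strands.ev {S : Sys Q} {N : ℕ} (X : Strands S N) (mu : Q → ℤ) (a : Fin N) (t : ℤ) : ℕ :=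
  (if X.L t a = X.L (t - 1) a then 0 else 1) + S.mark mu t (X.L t a)

/-- the number of events of strand `a` at the times in `(s, t]` -/
noncomputable def Strands.E {S : Sys Q} {N : ℕ} (X : Strands S N) (mu : Q → ℤ) (a : Fin N) (s t : ℤ) : ℕ :=
  ∑ τ ∈ Finset.Ioc s t, X.ev mu a τ

open Classical in
/-- number of entries of `q` into the zone during the times `(x, x + 2H]` -/
noncomputable def Sys.ent (S : Sys Q) (N : ℕ) (q : Q) (x : ℤ) : ℕ :=
  ((Finset.Ioc x (x + ((2 * S.H : ℕ) : ℤ))).filter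
    (fun t => q ∈ S.zone N t ∧ q ∉ S.zone N (t - 1))).card

end Pool.Agent.Lib.EcL
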